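import Pool.Agent.H85.TU.Targets2

/-!
# Board tum_modules, row B3B: witnesses of the tasks
-/

set_option autoImplicit false

open Set Pool.Agent.H85.TU

namespace Pool.Agent.H66.TU

section

variable {C : Type}

theorem LL_tp (z : Str bar (bD (LC C)) ℕ) {n : ℕ} (w : Fin n → ℕ) (i j : Fin n) :
    LL (tp z w) i j = zl z (w i) (w j) := by
  show z () (w ∘ ![i, j]) = z () ![w i, w j]
  congr 1
  funext k
  fin_cases k <;> rfl

end

theorem pf_B3B (hB3A : T_B3A) : T_B3B := by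
  rintro C α β len z ⟨hGa, -, hTas⟩
  obtain ⟨hs, heq⟩ := hB3A C α z hGa
  -- the conditions on pairs
  have hG : ∀ u v : ℕ, tp z ![u, v] ∈ Ga α := hGa
  have g01 : ∀ u v : ℕ, LL (tp z ![u, v]) 0 1 = zl z u v := fun u v => LL_tp z ![u, v] 0 1
  have g10 : ∀ u v : ℕ, LL (tp z ![u, v]) 1 0 = zl z v u := fun u v => LL_tp z ![u, v] 1 0
  have g00 : ∀ u v : ℕ, LL (tp z ![u, v]) 0 0 = zl z u u := fun u v => LL_tp z ![u, v] 0 0
  have htr : ∀ u v : ℕ, (zl z v u).2.2 = reidx ![2, 3, 0, 1] (zl z u v).2.2 := by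
    intro u v
    have h := (hG u v).1.2.2
    rwa [g01, g10] at h
  have hdi : ∀ u v : ℕ, (zl z u u).2.2 = reidx ![0, 1, 0, 1] (zl z u v).2.2 := by
    intro u v
    have h := (hG u v).2.1.2.2
    rwa [g01, g00] at h
  have h01 : ∀ u v : ℕ, (zl z u v).1 = false → eqv (zl z u v) 0 1 := by
    intro u v
    have h := (hG u v).2.2.1
    rwa [g01] at h
  have hsym : ∀ (u v : ℕ) (i j : Fin 4), eqv (zl z u v) i j → eqv (zl z u v) j i := by
    intro u v
    have h := (hG u v).2.2.2.2.1.2.1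
    rwa [g01] at h
  have htra : ∀ (u v : ℕ) (i j k : Fin 4), eqv (zl z u v) i j → eqv (zl z u v) j k →
      eqv (zl z u v) i k := by
    intro u v
    have h := (hG u v).2.2.2.2.1.2.2.1
    rwa [g01] at h
  have hT : ∀ u v : ℕ, ∃ e, Tas' β len (zl z u v) (zl z u e) (zl z v e) := by
    intro u v
    obtain ⟨e, he⟩ := hTas u v
    refine ⟨e, ?_⟩
    have h : Tas' β len (LL (tp z ![u, v, e]) 0 1) (LL (tp z ![u, v, e]) 0 2)
      (LL (tp z ![u, v, e]) 1 2) := he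
    have e1 : LL (tp z ![u, v, e]) 0 1 = zl z u v := LL_tp z ![u, v, e] 0 1
    have e2 : LL (tp z ![u, v, e]) 0 2 = zl z u e := LL_tp z ![u, v, e] 0 2
    have e3 : LL (tp z ![u, v, e]) 1 2 = zl z v e := LL_tp z ![u, v, e] 1 2
    rwa [e1, e2, e3] at h
  have l00 : ∀ u v : ℕ, lb (zl z u v) 0 0 = lb (zl z u u) 0 0 := by
    intro u v
    show (zl z u v).2.2.1 () ![0, 0] = (zl z u u).2.2.1 () ![0, 0]
    rw [hdi u v]
    have h3 : (![0, 0] : Fin 2 → Fin 4) = (![0, 1, 0, 1] : Fin 4 → Fin 4) ∘ ![0, 0] := by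
      funext k
      fin_cases k <;> rfl
    exact congrArg ((zl z u v).2.2.1 ()) h3
  have l22 : ∀ u v : ℕ, lb (zl z u v) 2 2 = lb (zl z v v) 0 0 := by
    intro u v
    rw [← l00 v u]
    show (zl z u v).2.2.1 () ![2, 2] = (zl z v u).2.2.1 () ![0, 0]
    rw [htr u v]
    have h3 : (![2, 2] : Fin 2 → Fin 4) = (![2, 3, 0, 1] : Fin 4 → Fin 4) ∘ ![0, 0] := by
      funext k
      fin_cases k <;> rfl
    exact congrArg ((zl z u v).2.2.1 ()) h3
  have hns : ∀ u, ¬ S0 z u → (zl z u u).1 = true := by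
    intro u hu
    rcases Bool.eq_false_or_eq_true (zl z u u).1 with h | h
    · exact h
    · exact absurd h hu
  -- points of both sorts
  obtain ⟨v0, hv0⟩ : ∃ v, S0 z v := by
    by_cases h : S0 z 0
    · exact ⟨0, h⟩
    · obtain ⟨e, he⟩ := hT 0 0
      have h1 := he.2.2.2 (hns 0 h) (by rw [(hs 0 0).2]; exact hns 0 h)
      exact ⟨e, by show (zl z e e).1 = false; rw [← (hs 0 e).2]; exact h1⟩
  obtain ⟨w0, hw0⟩ : ∃ w, ¬ S0 z w := by
    obtain ⟨e, he⟩ := hT v0 v0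
    have h1 := (he.1 hv0 (by rw [(hs v0 v0).2]; exact hv0)).1
    refine ⟨e, fun h => ?_⟩
    rw [(hs v0 e).2] at h1
    have h2 : (zl z e e).1 = false := h
    rw [h2] at h1
    exact Bool.false_ne_true h1
  have hk : ∀ k : ℕ, ∃ v, S0 z v ∧ len (lb (zl z v v) 0 0) = len (lb (zl z v0 v0) 0 0) + k := by
    intro k
    induction k with
    | zero => exact ⟨v0, hv0, rfl⟩
    | succ k ih =>
      obtain ⟨v, hv, hv2⟩ := ih
      obtain ⟨e, he⟩ := hT v w0
      obtain ⟨h1, h2⟩ := he.2.2.1 (by rw [(hs v w0).1]; exact hv)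
        (by rw [(hs v w0).2]; exact hns w0 hw0)
      refine ⟨e, by show (zl z e e).1 = false; rw [← (hs v e).2]; exact h1, ?_⟩
      rw [l22, l00 v e, hv2] at h2
      rw [h2]
      omega
  have htask : ∀ u, ¬ S0 z u → ∀ k, ∃ e, S0 z e ∧ Tk β (zl z u e) k := by
    intro u hu k
    have h1 : len (lb (zl z v0 v0) 0 0) ≤ Nat.pair k (len (lb (zl z v0 v0) 0 0)) :=
      Nat.right_le_pair _ _
    obtain ⟨d, hd⟩ := Nat.exists_eq_add_of_le h1
    obtain ⟨v, hv, hv2⟩ := hk d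
    obtain ⟨e, he⟩ := hT u v
    obtain ⟨h2, h3⟩ := he.2.1 (by rw [(hs u v).1]; exact hns u hu)
      (by rw [(hs u v).2]; exact hv)
    refine ⟨e, by show (zl z e e).1 = false; rw [← (hs u e).2]; exact h2, ?_⟩
    rw [l22, hv2, ← hd, Nat.unpair_pair] at h3
    exact h3
  refine ⟨fun n => ?_, fun u => ?_, fun u => ?_, fun u hu k => ?_, fun a b ha hb => ?_⟩
  · obtain ⟨v, hv, hv2⟩ := hk n
    exact ⟨v, hv, by omega⟩
  · by_cases hu : S0 z u
    · exact ⟨u, hu, (heq u u hu hu).2 rfl⟩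
    · exact htask u hu 0
  · by_cases hu : S0 z u
    · exact ⟨u, hu, htra u u 1 0 2 (hsym u u 0 1 (h01 u u hu)) ((heq u u hu hu).2 rfl)⟩
    · exact htask u hu 1
  · exact htask u hu (k + 2)
  · obtain ⟨e, he⟩ := hT a b
    obtain ⟨h1, h2, h3⟩ := he.1 (by rw [(hs a b).1]; exact ha) (by rw [(hs a b).2]; exact hb)
    refine ⟨e, fun h => ?_, ?_, ?_⟩
    · rw [(hs a e).2] at h1
      have h4 : (zl z e e).1 = false := h
      rw [h4] at h1
      exact Bool.false_ne_true h1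
    · show (zl z e a).2.2.2 0 2 = true
      rw [htr a e]
      exact hsym a e 0 2 h2
    · show (zl z e b).2.2.2 1 2 = true
      rw [htr b e]
      exact hsym b e 0 3 h3

end Pool.Agent.H66.TU
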