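import Pool.Agent.H85.TU.Targets2
import Pool.Agent.H60.TU.SNF

/-!
# Board tum_modules, row NFK: the models of the normal form are a core class
-/

set_option autoImplicit false

open Set Pool.Agent.H85.TU

namespace Pool.Agent.H66.TU

section

variable {C : Type} [MeasurableSpace C]

theorem holds_and2 (y : Str bar (bD C) ℕ) (φ ψ : F3 C) (v : Fin 3 → ℕ) :
    Holds y (and2 φ ψ) v ↔ Holds y φ v ∧ Holds y ψ v := by
  constructor
  · intro h
    exact ⟨h 0, h 1⟩
  · rintro ⟨h1, h2⟩ n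
    show Holds y (if n = 0 then φ else ψ) v
    by_cases hn : n = 0
    · rw [if_pos hn]
      exact h1
    · rw [if_neg hn]
      exact h2

/-- the part of the condition without quantifiers -/
def c1 (S : Set (F3 C)) : F3 C → F3 (LS S)
  | .ex a φ => .not (and2 (tr S φ) (.not (tr S (.ex a φ))))
  | ψ => .not (.label () {s | ev s ψ} (meas_ev ψ) ![0, 1])

theorem qf_c1 (S : Set (F3 C)) (ψ : F3 C) : QuantifierFree (c1 S ψ) := by
  cases ψ with
  | ex a φ =>
    exact Pool.Agent.H60.TU.qf_and2 (Pool.Agent.H60.TU.qf_tr S φ)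
      (Pool.Agent.H60.TU.qf_tr S (.ex a φ))
  | label i B hB w => trivial
  | equal a b => trivial
  | not φ => trivial
  | conj φ => trivial
  | atLeast k a φ => trivial

/-- the places of the variables -/
def rr (a : Fin 3) (j : Fin 3) : Fin 3 := if j = a then 2 else if j = oth a 0 then 0 else 1

theorem rr_update (a : Fin 3) (x0 x1 c : ℕ) :
    (![x0, x1, c] : Fin 3 → ℕ) ∘ rr a = Function.update ((![x0, x1, 0] : Fin 3 → ℕ) ∘ rr a) a c := by
  funext j
  fin_cases a <;> fin_cases j <;> simp [rr, oth, Function.update]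

theorem rr_update' (a : Fin 3) (v : Fin 3 → ℕ) (c : ℕ) :
    (![v (oth a 0), v (oth a 1), c] : Fin 3 → ℕ) ∘ rr a = Function.update v a c := by
  funext j
  fin_cases a <;> fin_cases j <;> simp [rr, oth, Function.update]

/-- the formula for the witness -/
def c2 (S : Set (F3 C)) (a : Fin 3) (φ : F3 C) : F3 (LS S) :=
  .not (and2 (tr S (.ex a φ)) (.not (tr S φ)))

theorem qf_c2 (S : Set (F3 C)) (a : Fin 3) (φ : F3 C) : QuantifierFree (c2 S a φ) :=
  Pool.Agent.H60.TU.qf_and2 (Pool.Agent.H60.TU.qf_tr S (.ex a φ))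
    (Pool.Agent.H60.TU.qf_tr S φ)

/-- the condition on the type of a pair with its witness -/
def bb (S : Set (F3 C)) : F3 C → Set (TB (LS S) 3)
  | .ex a φ => {t | HT (reidx (rr a) t) (c2 S a φ)}
  | _ => univ

theorem meas_reidx {C' : Type} [MeasurableSpace C'] {m n : ℕ} (r : Fin m → Fin n) :
    Measurable (reidx r : TB C' n → TB C' m) := by
  refine Measurable.prodMk ?_ ?_
  · refine measurable_pi_iff.2 fun i => measurable_pi_iff.2 fun v => ?_
    have h1 : Measurable fun x : Str bar (bD C') (Fin n) => x i (r ∘ v) :=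
      (measurable_pi_apply (r ∘ v)).comp (measurable_pi_apply i)
    exact h1.comp measurable_fst
  · refine measurable_pi_iff.2 fun i => measurable_pi_iff.2 fun j => ?_
    have h1 : Measurable fun x : Fin n → Fin n → Bool => x (r i) (r j) :=
      (measurable_pi_apply (r j)).comp (measurable_pi_apply (r i))
    exact h1.comp measurable_snd

theorem meas_bb (hQFT : T_QFT) (S : Set (F3 C)) (ψ : F3 C) : MeasurableSet (bb S ψ) := by
  cases ψ with
  | ex a φ => exact meas_reidx (rr a) (hQFT (LS S) (c2 S a φ) (qf_c2 S a φ)).1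
  | label i B hB w => exact MeasurableSet.univ
  | equal a b => exact MeasurableSet.univ
  | not φ => exact MeasurableSet.univ
  | conj φ => exact MeasurableSet.univ
  | atLeast k a φ => exact MeasurableSet.univ

theorem cnd_iff (hQFT : T_QFT) (S : Set (F3 C)) (ψ : F3 C) (y : Str bar (bD (LS S)) ℕ) :
    (∀ v, Holds y (cnd S ψ) v) ↔ (∀ v, HT (tp y v) (c1 S ψ)) ∧
      ∀ x0 x1, ∃ c, tp y ![x0, x1, c] ∈ bb S ψ := by
  have hc1 : ∀ v, Holds y (c1 S ψ) v ↔ HT (tp y v) (c1 S ψ) := fun v =>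
    (hQFT (LS S) (c1 S ψ) (qf_c1 S ψ)).2 y v
  cases ψ with
  | ex a φ =>
    have hc2 : ∀ v, Holds y (c2 S a φ) v ↔ HT (tp y v) (c2 S a φ) := fun v =>
      (hQFT (LS S) (c2 S a φ) (qf_c2 S a φ)).2 y v
    have h0 : ∀ v, Holds y (cnd S (.ex a φ)) v ↔
        Holds y (c1 S (.ex a φ)) v ∧ ∃ c, Holds y (c2 S a φ) (Function.update v a c) := fun v =>
      holds_and2 y _ _ v
    constructor
    · intro h
      refine ⟨fun v => (hc1 v).1 ((h0 v).1 (h v)).1, fun x0 x1 => ?_⟩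
      obtain ⟨c, hc⟩ := ((h0 _).1 (h ((![x0, x1, 0] : Fin 3 → ℕ) ∘ rr a))).2
      refine ⟨c, ?_⟩
      show HT (tp y ((![x0, x1, c] : Fin 3 → ℕ) ∘ rr a)) (c2 S a φ)
      rw [rr_update a x0 x1 c]
      exact (hc2 _).1 hc
    · rintro ⟨h1, h2⟩ v
      refine (h0 v).2 ⟨(hc1 v).2 (h1 v), ?_⟩
      obtain ⟨c, hc⟩ := h2 (v (oth a 0)) (v (oth a 1))
      refine ⟨c, ?_⟩
      have h3 : HT (tp y ((![v (oth a 0), v (oth a 1), c] : Fin 3 → ℕ) ∘ rr a)) (c2 S a φ) := hc
      rw [rr_update' a v c] at h3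
      exact (hc2 _).2 h3
  | label i B hB w =>
    exact ⟨fun h => ⟨fun v => (hc1 v).1 (h v), fun _ _ => ⟨0, trivial⟩⟩,
      fun h v => (hc1 v).2 (h.1 v)⟩
  | equal a b =>
    exact ⟨fun h => ⟨fun v => (hc1 v).1 (h v), fun _ _ => ⟨0, trivial⟩⟩,
      fun h v => (hc1 v).2 (h.1 v)⟩
  | not φ =>
    exact ⟨fun h => ⟨fun v => (hc1 v).1 (h v), fun _ _ => ⟨0, trivial⟩⟩,
      fun h v => (hc1 v).2 (h.1 v)⟩
  | conj φ =>
    exact ⟨fun h => ⟨fun v => (hc1 v).1 (h v), fun _ _ => ⟨0, trivial⟩⟩,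
      fun h v => (hc1 v).2 (h.1 v)⟩
  | atLeast k a φ =>
    exact ⟨fun h => ⟨fun v => (hc1 v).1 (h v), fun _ _ => ⟨0, trivial⟩⟩,
      fun h v => (hc1 v).2 (h.1 v)⟩

end

/-- the models of the normal form are a core class -/
theorem pf_NFK (hQFT : T_QFT) : T_NFK := by
  intro C _ φ θ _
  have hq := hQFT (LS (subs φ)) (tr (subs φ) φ) (Pool.Agent.H60.TU.qf_tr (subs φ) φ)
  refine ⟨{t | HT t (tr (subs φ) φ)} ∩ ⋂ n, {t | HT t (c1 (subs φ) (θ n))},
    fun n => bb (subs φ) (θ n), ?_, fun n => meas_bb hQFT _ _, ?_⟩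
  · exact hq.1.inter (MeasurableSet.iInter fun n =>
      (hQFT (LS (subs φ)) (c1 (subs φ) (θ n)) (qf_c1 (subs φ) (θ n))).1)
  · ext y
    have h0 : ∀ v, Holds y (nf φ θ) v ↔ Holds y (tr (subs φ) φ) v ∧
        ∀ n, Holds y (cnd (subs φ) (θ n)) v := fun v => holds_and2 y _ _ v
    constructor
    · rintro ⟨h1, h2⟩ v
      refine (h0 v).2 ⟨(hq.2 y v).2 (h1 v).1, fun n => ?_⟩
      exact (cnd_iff hQFT (subs φ) (θ n) y).2
        ⟨fun w => mem_iInter.1 (h1 w).2 n, fun x0 x1 => h2 n x0 x1⟩ v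
    · intro h
      have h3 : ∀ v, Holds y (nf φ θ) v := h
      have h4 : ∀ n, (∀ v, HT (tp y v) (c1 (subs φ) (θ n))) ∧
          ∀ x0 x1, ∃ c, tp y ![x0, x1, c] ∈ bb (subs φ) (θ n) := fun n =>
        (cnd_iff hQFT (subs φ) (θ n) y).1 fun v => ((h0 v).1 (h3 v)).2 n
      exact ⟨fun v => ⟨(hq.2 y v).1 ((h0 v).1 (h3 v)).1, mem_iInter.2 fun n => (h4 n).1 v⟩,
        fun n a b => (h4 n).2 a b⟩

end Pool.Agent.H66.TU
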